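import Pool.Agent.H852R2.TE.Defs

/-! Task 73 (FPOS) of the project TE: properties of the polynomial `F(T)` -/

namespace TE852
open RC14 RC852 Finset
open scoped InnerProductSpace

/-- the real polynomial -/
private noncomputable def fr (M d : ℕ) (t : ℝ) : ℝ :=
  ∑ i ∈ Finset.range (d + 1), (M.choose i : ℝ) * ((1 - t) ^ i * t ^ (M - i))

private theorem bern_sum (M : ℕ) (t : ℝ) :
    ∑ i ∈ Finset.range (M + 1), (M.choose i : ℝ) * ((1 - t) ^ i * t ^ (M - i)) = 1 := by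
  have h := congrArg (Polynomial.eval (1 - t)) (bernsteinPolynomial.sum ℝ M)
  rw [Polynomial.eval_finsetSum] at h
  simp only [bernsteinPolynomial, Polynomial.eval_mul, Polynomial.eval_natCast,
    Polynomial.eval_pow, Polynomial.eval_X, Polynomial.eval_sub, Polynomial.eval_one,
    sub_sub_cancel] at h
  exact Eq.trans (Finset.sum_congr rfl (fun i _ => by ring)) h

private theorem bern_mean (M : ℕ) (t : ℝ) :
    ∑ i ∈ Finset.range (M + 1), (i : ℝ) * ((M.choose i : ℝ) * ((1 - t) ^ i * t ^ (M - i))) =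
      M * (1 - t) := by
  have h := congrArg (Polynomial.eval (1 - t)) (bernsteinPolynomial.sum_smul ℝ M)
  rw [Polynomial.eval_finsetSum] at h
  simp only [bernsteinPolynomial, Polynomial.eval_mul, Polynomial.eval_natCast,
    Polynomial.eval_pow, Polynomial.eval_X, Polynomial.eval_sub, Polynomial.eval_one,
    sub_sub_cancel, nsmul_eq_mul] at h
  exact Eq.trans (Finset.sum_congr rfl (fun i _ => by ring)) h

private theorem fr_nonneg {M d : ℕ} {t : ℝ} (h0 : 0 ≤ t) (h1 : t ≤ 1) : 0 ≤ fr M d t := by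
  have : 0 ≤ 1 - t := by linarith
  exact Finset.sum_nonneg (fun i _ => by positivity)

private theorem fr_le_one {M d : ℕ} (hd : d ≤ M) {t : ℝ} (h0 : 0 ≤ t) (h1 : t ≤ 1) :
    fr M d t ≤ 1 := by
  have h2 : 0 ≤ 1 - t := by linarith
  rw [← bern_sum M t, fr]
  refine Finset.sum_le_sum_of_subset_of_nonneg ?_ (fun i _ _ => by positivity)
  exact Finset.range_subset_range.mpr (by omega)

private theorem fr_mean {M d : ℕ} (hd : d ≤ M) {t : ℝ} (h0 : 0 ≤ t) (h1 : t ≤ 1) :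
    1 - fr M d t ≤ (M : ℝ) / (d + 1) * (1 - t) := by
  have h2 : 0 ≤ 1 - t := by linarith
  have hsub : Finset.range (d + 1) ⊆ Finset.range (M + 1) :=
    Finset.range_subset_range.mpr (by omega)
  have hA : 1 - fr M d t = ∑ i ∈ Finset.range (M + 1) \ Finset.range (d + 1),
      (M.choose i : ℝ) * ((1 - t) ^ i * t ^ (M - i)) := by
    have hb1 := bern_sum M t
    rw [← Finset.sum_sdiff hsub] at hb1
    unfold fr
    linarith
  have hB : ((d : ℝ) + 1) * (1 - fr M d t) ≤ M * (1 - t) := by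
    rw [hA, Finset.mul_sum, ← bern_mean M t, ← Finset.sum_sdiff hsub]
    refine le_trans (Finset.sum_le_sum (fun i hi => ?_)) (le_add_of_nonneg_right
      (Finset.sum_nonneg (fun i _ => by positivity)))
    rw [mem_sdiff, mem_range, mem_range] at hi
    refine mul_le_mul_of_nonneg_right ?_ (by positivity)
    have : d + 1 ≤ i := by omega
    exact_mod_cast this
  have hd0 : (0 : ℝ) < (d : ℝ) + 1 := by positivity
  rw [div_mul_eq_mul_div, le_div_iff₀ hd0, mul_comm]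
  exact hB

variable {V : Type*} [NormedAddCommGroup V] [InnerProductSpace ℂ V] [FiniteDimensional ℂ V]

private theorem Fp_sym (T : Module.End ℂ V) (hT : T.IsSymmetric) (M d : ℕ) :
    (Fp T M d).IsSymmetric := by
  have h1 : (1 - T : Module.End ℂ V).IsSymmetric := LinearMap.IsSymmetric.one.sub hT
  have hpow : ∀ (S : Module.End ℂ V), S.IsSymmetric → ∀ n : ℕ, (S ^ n).IsSymmetric :=
    fun S hS n => hS.pow n
  have hcomm : ∀ i j : ℕ, Commute ((1 - T : Module.End ℂ V) ^ i) (T ^ j) := by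
    intro i j
    refine Commute.pow_pow ?_ i j
    exact (Commute.one_left T).sub_left (Commute.refl T)
  have hterm : ∀ i : ℕ, ((M.choose i : ℂ) • ((1 - T) ^ i * T ^ (M - i))
      : Module.End ℂ V).IsSymmetric := by
    intro i v w
    have h2 : ((1 - T) ^ i * T ^ (M - i) : Module.End ℂ V).IsSymmetric :=
      (hpow _ h1 i).mul_of_commute (hpow _ hT _) (hcomm i (M - i))
    simp only [LinearMap.smul_apply, inner_smul_left, inner_smul_right, map_natCast]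
    rw [h2 v w]
  intro v w
  unfold Fp
  simp only [LinearMap.sum_apply, sum_inner, inner_sum]
  exact Finset.sum_congr rfl (fun i _ => hterm i v w)

private theorem Fp_eig (T : Module.End ℂ V) (M d : ℕ) (u : V) (t : ℝ)
    (hu : T u = (t : ℂ) • u) : Fp T M d u = ((fr M d t : ℝ) : ℂ) • u := by
  have hT : ∀ n : ℕ, (T ^ n) u = ((t : ℂ) ^ n) • u := by
    intro n
    induction n with
    | zero => simp
    | succ n ih =>
      rw [pow_succ', Module.End.mul_apply, ih, map_smul, hu, smul_smul, pow_succ]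
  have h1 : (1 - T : Module.End ℂ V) u = ((1 - t : ℂ)) • u := by
    rw [LinearMap.sub_apply, Module.End.one_apply, hu, sub_smul, one_smul]
  have hS : ∀ n : ℕ, ((1 - T : Module.End ℂ V) ^ n) u = ((1 - t : ℂ) ^ n) • u := by
    intro n
    induction n with
    | zero => simp
    | succ n ih =>
      rw [pow_succ', Module.End.mul_apply, ih, map_smul, h1, smul_smul, pow_succ]
  unfold Fp fr
  rw [LinearMap.sum_apply]
  push_cast
  rw [Finset.sum_smul]
  refine Finset.sum_congr rfl (fun i _ => ?_)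
  rw [LinearMap.smul_apply, Module.End.mul_apply, hT, map_smul, hS, smul_smul, smul_smul]
  congr 1
  ring

/-- properties of `F(T)` for `0 ≤ T ≤ 1` -/
theorem FPOS (T : Module.End ℂ V) (hT : T.IsSymmetric) (h0 : ∀ v, 0 ≤ (⟪T v, v⟫_ℂ).re)
    (h1 : ∀ v, (⟪T v, v⟫_ℂ).re ≤ ‖v‖ ^ 2) (M d : ℕ) (hd : d ≤ M) :
    (Fp T M d).IsSymmetric ∧ (∀ v, ‖Fp T M d v‖ ≤ ‖v‖) ∧
      (∀ v, ‖v‖ ^ 2 - ‖Fp T M d v‖ ^ 2 ≤
        2 * ((M : ℝ) / (d + 1)) * (‖v‖ ^ 2 - (⟪T v, v⟫_ℂ).re)) ∧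
      ∀ v, ‖v - Fp T M d v‖ ^ 2 ≤ (M : ℝ) / (d + 1) * (‖v‖ ^ 2 - (⟪T v, v⟫_ℂ).re) := by
  have hF := Fp_sym T hT M d
  set F := Fp T M d with hFdef
  set n := Module.finrank ℂ V with hn
  have hn' : Module.finrank ℂ V = n := rfl
  let b := hT.eigenvectorBasis hn'
  let t : Fin n → ℝ := hT.eigenvalues hn'
  have hb : ∀ i, T (b i) = ((t i : ℝ) : ℂ) • b i := fun i => hT.apply_eigenvectorBasis hn' i
  have hbn : ∀ i, ‖b i‖ = 1 := fun i => b.orthonormal.1 i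
  have hin : ∀ i, (⟪T (b i), b i⟫_ℂ).re = t i := by
    intro i
    rw [hb, inner_smul_left, inner_self_eq_norm_sq_to_K, hbn]
    simp
  have ht0 : ∀ i, 0 ≤ t i := fun i => by rw [← hin i]; exact h0 _
  have ht1 : ∀ i, t i ≤ 1 := fun i => by
    rw [← hin i]
    have := h1 (b i)
    rw [hbn] at this
    simpa using this
  have hFb : ∀ i, F (b i) = ((fr M d (t i) : ℝ) : ℂ) • b i := fun i =>
    Fp_eig T M d (b i) (t i) (hb i)
  have hFc : ∀ v i, ⟪b i, F v⟫_ℂ = ((fr M d (t i) : ℝ) : ℂ) * ⟪b i, v⟫_ℂ := by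
    intro v i
    rw [← hF (b i) v, hFb, inner_smul_left, Complex.conj_ofReal]
  have hnorm : ∀ v, ‖v‖ ^ 2 = ∑ i, ‖⟪b i, v⟫_ℂ‖ ^ 2 := fun v =>
    (b.sum_sq_norm_inner_right v).symm
  have hFn : ∀ v, ‖F v‖ ^ 2 = ∑ i, (fr M d (t i)) ^ 2 * ‖⟪b i, v⟫_ℂ‖ ^ 2 := by
    intro v
    rw [hnorm]
    refine Finset.sum_congr rfl (fun i _ => ?_)
    rw [hFc, norm_mul, mul_pow, Complex.norm_real, Real.norm_eq_abs, sq_abs]
  have hFd : ∀ v, ‖v - F v‖ ^ 2 = ∑ i, (1 - fr M d (t i)) ^ 2 * ‖⟪b i, v⟫_ℂ‖ ^ 2 := by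
    intro v
    rw [hnorm]
    refine Finset.sum_congr rfl (fun i _ => ?_)
    have : ⟪b i, v - F v⟫_ℂ = ((1 - fr M d (t i) : ℝ) : ℂ) * ⟪b i, v⟫_ℂ := by
      rw [inner_sub_right, hFc]
      push_cast
      ring
    rw [this, norm_mul, mul_pow, Complex.norm_real, Real.norm_eq_abs, sq_abs]
  have hTn : ∀ v, (⟪T v, v⟫_ℂ).re = ∑ i, t i * ‖⟪b i, v⟫_ℂ‖ ^ 2 := by
    intro v
    rw [← b.sum_inner_mul_inner (T v) v, Complex.re_sum]
    refine Finset.sum_congr rfl (fun i _ => ?_)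
    have h3 : ⟪T v, b i⟫_ℂ = ((t i : ℝ) : ℂ) * ⟪v, b i⟫_ℂ := by
      rw [hT v (b i), hb, inner_smul_right]
    rw [h3, mul_assoc, Complex.re_ofReal_mul]
    congr 1
    have h4 : ⟪v, b i⟫_ℂ = (starRingEnd ℂ) ⟪b i, v⟫_ℂ := (inner_conj_symm v (b i)).symm
    rw [h4, mul_comm, Complex.mul_conj, Complex.ofReal_re, Complex.normSq_eq_norm_sq]
  have hE : ∀ v, ‖v‖ ^ 2 - (⟪T v, v⟫_ℂ).re = ∑ i, (1 - t i) * ‖⟪b i, v⟫_ℂ‖ ^ 2 := by
    intro v
    rw [hTn, hnorm, ← Finset.sum_sub_distrib]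
    exact Finset.sum_congr rfl (fun i _ => by ring)
  have f0 : ∀ i, 0 ≤ fr M d (t i) := fun i => fr_nonneg (ht0 i) (ht1 i)
  have f1 : ∀ i, fr M d (t i) ≤ 1 := fun i => fr_le_one hd (ht0 i) (ht1 i)
  have f2 : ∀ i, 1 - fr M d (t i) ≤ (M : ℝ) / (d + 1) * (1 - t i) := fun i =>
    fr_mean hd (ht0 i) (ht1 i)
  refine ⟨hF, fun v => ?_, fun v => ?_, fun v => ?_⟩
  · refine le_of_sq_le_sq ?_ (norm_nonneg _)
    rw [hFn, hnorm v]
    refine Finset.sum_le_sum (fun i _ => ?_)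
    have h5 : (fr M d (t i)) ^ 2 ≤ 1 := by nlinarith [f0 i, f1 i]
    nlinarith [sq_nonneg ‖⟪b i, v⟫_ℂ‖]
  · rw [hE, hFn, hnorm v, ← Finset.sum_sub_distrib, Finset.mul_sum]
    refine Finset.sum_le_sum (fun i _ => ?_)
    have h5 : 1 - (fr M d (t i)) ^ 2 ≤ 2 * ((M : ℝ) / (d + 1)) * (1 - t i) := by
      nlinarith [f0 i, f1 i, f2 i]
    have h6 := mul_le_mul_of_nonneg_right h5 (sq_nonneg ‖⟪b i, v⟫_ℂ‖)
    calc _ = (1 - (fr M d (t i)) ^ 2) * ‖⟪b i, v⟫_ℂ‖ ^ 2 := by ring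
      _ ≤ _ := h6
      _ = _ := by ring
  · rw [hE, hFd, Finset.mul_sum]
    refine Finset.sum_le_sum (fun i _ => ?_)
    have h5 : (1 - fr M d (t i)) ^ 2 ≤ (M : ℝ) / (d + 1) * (1 - t i) := by
      nlinarith [f0 i, f1 i, f2 i]
    have h6 := mul_le_mul_of_nonneg_right h5 (sq_nonneg ‖⟪b i, v⟫_ℂ‖)
    calc _ ≤ _ := h6
      _ = _ := by ring

end TE852
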