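import Pool.Agent.H852R2.TE.S.ROUND

/-! Task 87 (TEMAIN) of the project TE -/

namespace TE852
open RC14 RC852 Finset Filter Equiv

private theorem Rr_mono {s s' : ℝ} (h : s ≤ s') {n : ℕ} (hn : 1 ≤ n) : Rr s n ≤ Rr s' n := by
  unfold Rr
  apply Nat.floor_le_floor
  exact Real.rpow_le_rpow_of_exponent_le (by exact_mod_cast hn) h

private theorem good_anti {n m m' : ℕ} {c : ℝ} {k : ℕ} {y : Fin k → Alt n} (h : m ≤ m')
    (hg : Good1 n m' c y) : Good1 n m c y :=
  fun j h1 h2 => hg j h1 (h2.trans h)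

private theorem card_anti {n m m' : ℕ} {c : ℝ} {k : ℕ} (h : m ≤ m') :
    (Nat.card {y : Fin k → Alt n // ¬ Good1 n m c y} : ℝ) ≤
      Nat.card {y : Fin k → Alt n // ¬ Good1 n m' c y} := by
  have : Nat.card {y : Fin k → Alt n // ¬ Good1 n m c y} ≤
      Nat.card {y : Fin k → Alt n // ¬ Good1 n m' c y} := by
    refine Nat.card_le_card_of_injective
      (fun y => ⟨y.1, fun hy => y.2 (good_anti h hy)⟩) ?_
    intro y z hyz
    exact Subtype.ext (congrArg (fun w : {y : Fin k → Alt n // ¬ Good1 n m' c y} => w.1) hyz)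
  exact_mod_cast this

/-- `Hyp` is antitone -/
theorem Hyp_anti {s s' : ℝ} (h : s ≤ s') (hH : Hyp s') : Hyp s := by
  obtain ⟨a, ha, c, hc, B, hB, hev⟩ := hH
  refine ⟨a, ha, c, hc, B, hB, ?_⟩
  filter_upwards [hev, eventually_ge_atTop 1] with n hn hn1
  exact (card_anti (Rr_mono h hn1)).trans hn

/-- the start of the induction -/
theorem Hyp_zero : Hyp 0 := by
  refine ⟨8 + 64, by norm_num, 1 / (16 * (64 : ℝ) ^ 2), by norm_num, 2, by norm_num, ?_⟩
  have h := R1core (1 / 4) (by norm_num) le_rfl 64 (by norm_num) (by norm_num)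
  filter_upwards [h, eventually_ge_atTop 1] with n hn hn1
  have h1 : Rr 0 n ≤ mm (1 / 4) n := by
    unfold Rr mm
    apply Nat.floor_le_floor
    exact Real.rpow_le_rpow_of_exponent_le (by exact_mod_cast hn1) (by norm_num)
  have h2 := (card_anti (c := 1 / (16 * ((64 : ℕ) : ℝ) ^ 2)) (k := 8 + 64) h1).trans hn
  exact_mod_cast h2

/-- the final result from the rounds -/
theorem TEMAIN_of (hR : ∀ δ s : ℝ, 0 < δ → δ ≤ 1 / 16 → 0 ≤ s → s + 3 * δ ≤ 1 → Hyp s →
    Hyp (s + δ)) (s : ℝ) (hs : s < 1) : Hyp s := by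
  obtain ⟨N, hN⟩ := exists_nat_gt (max 16 (2 / (1 - s)))
  have hN16 : (16 : ℝ) < N := (le_max_left _ _).trans_lt hN
  have hN2 : 2 / (1 - s) < N := (le_max_right _ _).trans_lt hN
  have hN0 : (0 : ℝ) < N := by linarith
  have key : ∀ i : ℕ, i + 2 ≤ N → Hyp ((i : ℝ) / N) := by
    intro i
    induction i with
    | zero =>
      intro _
      simpa using Hyp_zero
    | succ i ih =>
      intro hi
      have h1 := hR (1 / (N : ℝ)) ((i : ℝ) / N) (by positivity) (by
        rw [div_le_div_iff₀ hN0 (by norm_num)]; linarith) (by positivity) (by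
        have : ((i : ℝ) + 3) ≤ N := by exact_mod_cast hi
        rw [mul_one_div, ← add_div, div_le_one hN0]
        exact this) (ih (by omega))
      have h2 : ((i + 1 : ℕ) : ℝ) / N = (i : ℝ) / N + 1 / N := by
        push_cast
        rw [add_div]
      rw [h2]
      exact h1
  have hN16' : 16 < N := by exact_mod_cast hN16
  have h3 := key (N - 2) (by omega)
  refine Hyp_anti ?_ h3
  rw [Nat.cast_sub (by omega), le_div_iff₀ hN0]
  rw [div_lt_iff₀ (by linarith)] at hN2
  push_cast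
  nlinarith

/-- the final result: fixed number of permutations, all levels `≤ n^s` with `s < 1` -/
theorem TEMAIN' (s : ℝ) (hs : s < 1) : Hyp s :=
  TEMAIN_of (fun δ s h1 h2 h3 h4 h5 => ROUND δ s h1 h2 h3 h4 h5) s hs

end TE852
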